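import Pool.Agent.Y168.LefK.Defs

set_option autoImplicit false

namespace Pool.Agent.Y168.LefK

open Filter Topology

/-- comparison of the two leading coefficients -/
theorem coeff_le (l : ℕ) (δ : Fin (l + 2) → ℝ)
    (h : ∀ p q j : ℕ, 1 ≤ q → j < p →
      volume (l + 1) δ p q ≤ volume (l + 1) δ ((p - j : ℕ) : ℝ) ((q + j : ℕ) : ℝ)) :
    δ (Fin.last (l + 1)) ≤ δ (Fin.castSucc (Fin.last l)) := by
  -- the coefficients
  let c : Fin (l + 2) → ℝ := fun i =>
    δ i / ((Nat.factorial i : ℝ) * (Nat.factorial (l + 1 - i) : ℝ))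
  have hvol : ∀ p q : ℝ, volume (l + 1) δ p q =
      ∑ i : Fin (l + 1), c (Fin.castSucc i) * (p ^ (i : ℕ) * q ^ (l + 1 - i : ℕ)) +
        c (Fin.last (l + 1)) * p ^ (l + 1) := by
    intro p q
    unfold volume
    rw [Fin.sum_univ_castSucc]
    congr 1
    · refine Finset.sum_congr rfl fun i _ => ?_
      simp only [c, Fin.val_castSucc]
      ring
    · simp only [c, Fin.val_last, Nat.sub_self, pow_zero]
      ring
  let g : ℝ → ℝ := fun x => ∑ i : Fin (l + 1), c (Fin.castSucc i) *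
      ((1 - x) ^ (i : ℕ) * (1 + x) ^ (l + 1 - i : ℕ) * x ^ (l - i : ℕ) -
        x ^ (2 * (l - i : ℕ) + 1)) -
      c (Fin.last (l + 1)) * ∑ j ∈ Finset.range (l + 1), (1 - x) ^ j
  have hg : Continuous g := by
    simp only [g]
    fun_prop
  have hg0 : ∀ n : ℕ, 2 ≤ n → 0 ≤ g (1 / (n : ℝ)) := by
    intro n hn
    have hn0 : (0 : ℝ) < n := by
      have : (2 : ℝ) ≤ n := by exact_mod_cast hn
      linarith
    have h1 := h (n ^ 2) 1 n le_rfl (by nlinarith)
    have e1 : ((n ^ 2 - n : ℕ) : ℝ) = (n : ℝ) ^ 2 * (1 - 1 / n) := by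
      rw [Nat.cast_sub (by nlinarith)]
      push_cast
      field_simp
    have e2 : ((1 + n : ℕ) : ℝ) = n * (1 + 1 / (n : ℝ)) := by
      push_cast
      field_simp
      ring
    rw [e1, e2, hvol, hvol] at h1
    obtain ⟨x, hx⟩ : ∃ x : ℝ, x = 1 / n := ⟨_, rfl⟩
    have hnx : (n : ℝ) * x = 1 := by rw [hx]; field_simp
    rw [← hx] at h1 ⊢
    have key : (n : ℝ) ^ (2 * l + 1) * g x =
        (∑ i : Fin (l + 1), c (Fin.castSucc i) *
          (((n : ℝ) ^ 2 * (1 - x)) ^ (i : ℕ) * (n * (1 + x)) ^ (l + 1 - i : ℕ)) +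
        c (Fin.last (l + 1)) * ((n : ℝ) ^ 2 * (1 - x)) ^ (l + 1)) -
        (∑ i : Fin (l + 1), c (Fin.castSucc i) *
          ((((n ^ 2 : ℕ) : ℝ)) ^ (i : ℕ) * ((1 : ℕ) : ℝ) ^ (l + 1 - i : ℕ)) +
        c (Fin.last (l + 1)) * (((n ^ 2 : ℕ) : ℝ)) ^ (l + 1)) := by
      have hlast : (n : ℝ) ^ (2 * l + 1) * ∑ j ∈ Finset.range (l + 1), (1 - x) ^ j =
          ((n : ℝ) ^ 2) ^ (l + 1) - ((n : ℝ) ^ 2 * (1 - x)) ^ (l + 1) := by
        have h2 := mul_neg_geom_sum (1 - x) (l + 1)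
        have h3 : 1 - (1 - x) = x := by ring
        rw [h3] at h2
        have h4 : ((n : ℝ) ^ 2) ^ (l + 1) - ((n : ℝ) ^ 2 * (1 - x)) ^ (l + 1) =
            ((n : ℝ) ^ 2) ^ (l + 1) * (1 - (1 - x) ^ (l + 1)) := by
          rw [mul_pow]; ring
        rw [h4, ← h2]
        have h5 : ((n : ℝ) ^ 2) ^ (l + 1) = (n : ℝ) ^ (2 * l + 1) * n := by ring
        rw [h5]
        calc _ = (n : ℝ) ^ (2 * l + 1) * (n * x) * ∑ j ∈ Finset.range (l + 1), (1 - x) ^ j := by
              rw [hnx, mul_one]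
          _ = _ := by ring
      have hterm : ∀ i : Fin (l + 1), (n : ℝ) ^ (2 * l + 1) *
          ((1 - x) ^ (i : ℕ) * (1 + x) ^ (l + 1 - i : ℕ) * x ^ (l - i : ℕ) -
            x ^ (2 * (l - i : ℕ) + 1)) =
          ((n : ℝ) ^ 2 * (1 - x)) ^ (i : ℕ) * (n * (1 + x)) ^ (l + 1 - i : ℕ) -
            (((n ^ 2 : ℕ) : ℝ)) ^ (i : ℕ) * ((1 : ℕ) : ℝ) ^ (l + 1 - i : ℕ) := by
        intro i
        obtain ⟨e, he⟩ : ∃ e, l = i + e := ⟨l - i, by omega⟩
        have h1 : l - (i : ℕ) = e := by omega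
        have h2 : l + 1 - (i : ℕ) = e + 1 := by omega
        rw [h1, h2]
        have h3 : 2 * l + 1 = 2 * (i : ℕ) + (e + 1) + e := by omega
        have h4 : 2 * l + 1 = 2 * (i : ℕ) + (2 * e + 1) := by omega
        have h5 : (n : ℝ) ^ (2 * l + 1) * x ^ e = (n : ℝ) ^ (2 * (i : ℕ) + (e + 1)) := by
          rw [h3, pow_add _ _ e, mul_assoc, ← mul_pow, hnx, one_pow, mul_one]
        have h6 : (n : ℝ) ^ (2 * l + 1) * x ^ (2 * e + 1) = (n : ℝ) ^ (2 * (i : ℕ)) := by
          rw [h4, pow_add _ _ (2 * e + 1), mul_assoc, ← mul_pow, hnx, one_pow, mul_one]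
        calc _ = (1 - x) ^ (i : ℕ) * (1 + x) ^ (e + 1) * ((n : ℝ) ^ (2 * l + 1) * x ^ e) -
              (n : ℝ) ^ (2 * l + 1) * x ^ (2 * e + 1) := by ring
          _ = _ := by
            rw [h5, h6]
            push_cast
            rw [one_pow, mul_one, mul_pow, mul_pow, pow_add, ← pow_mul]
            ring
      calc (n : ℝ) ^ (2 * l + 1) * g x = ∑ i : Fin (l + 1), c (Fin.castSucc i) *
            ((n : ℝ) ^ (2 * l + 1) *
              ((1 - x) ^ (i : ℕ) * (1 + x) ^ (l + 1 - i : ℕ) * x ^ (l - i : ℕ) -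
                x ^ (2 * (l - i : ℕ) + 1))) -
            c (Fin.last (l + 1)) * ((n : ℝ) ^ (2 * l + 1) *
              ∑ j ∈ Finset.range (l + 1), (1 - x) ^ j) := by
            simp only [g]
            rw [mul_sub, Finset.mul_sum]
            congr 1
            · exact Finset.sum_congr rfl fun i _ => by ring
            · ring
        _ = ∑ i : Fin (l + 1), c (Fin.castSucc i) *
            (((n : ℝ) ^ 2 * (1 - x)) ^ (i : ℕ) * (n * (1 + x)) ^ (l + 1 - i : ℕ) -
            (((n ^ 2 : ℕ) : ℝ)) ^ (i : ℕ) * ((1 : ℕ) : ℝ) ^ (l + 1 - i : ℕ)) -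
            c (Fin.last (l + 1)) *
              (((n : ℝ) ^ 2) ^ (l + 1) - ((n : ℝ) ^ 2 * (1 - x)) ^ (l + 1)) := by
            rw [hlast]
            congr 1
            exact Finset.sum_congr rfl fun i _ => by rw [hterm]
        _ = _ := by
            simp only [mul_sub, Finset.sum_sub_distrib]
            push_cast
            ring
    have h2 : 0 ≤ (n : ℝ) ^ (2 * l + 1) * g x := by
      rw [key]; linarith
    exact nonneg_of_mul_nonneg_right h2 (by positivity)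
  have hlim : 0 ≤ g 0 := by
    have h1 : Tendsto (fun n : ℕ => g (1 / (n : ℝ))) atTop (𝓝 (g 0)) :=
      (hg.tendsto 0).comp tendsto_one_div_atTop_nhds_zero_nat
    refine ge_of_tendsto h1 ?_
    filter_upwards [eventually_ge_atTop 2] with n hn
    exact hg0 n hn
  have hg00 : g 0 = c (Fin.castSucc (Fin.last l)) - (l + 1 : ℝ) * c (Fin.last (l + 1)) := by
    simp only [g]
    rw [Fin.sum_univ_castSucc]
    have h1 : ∑ i : Fin l, c (Fin.castSucc (Fin.castSucc i)) *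
        ((1 - (0 : ℝ)) ^ ((Fin.castSucc i : Fin (l + 1)) : ℕ) *
          (1 + (0 : ℝ)) ^ (l + 1 - (Fin.castSucc i : Fin (l + 1)) : ℕ) *
          (0 : ℝ) ^ (l - (Fin.castSucc i : Fin (l + 1)) : ℕ) -
          (0 : ℝ) ^ (2 * (l - (Fin.castSucc i : Fin (l + 1)) : ℕ) + 1)) = 0 := by
      refine Finset.sum_eq_zero fun i _ => ?_
      have h2 : l - ((Fin.castSucc i : Fin (l + 1)) : ℕ) ≠ 0 := by
        have := i.isLt
        simp only [Fin.val_castSucc]
        omega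
      rw [zero_pow h2, zero_pow (by omega)]
      ring
    rw [h1]
    simp
    ring
  rw [hg00] at hlim
  have h1 : c (Fin.castSucc (Fin.last l)) = δ (Fin.castSucc (Fin.last l)) / (Nat.factorial l) := by
    simp [c]
  have h2 : (l + 1 : ℝ) * c (Fin.last (l + 1)) = δ (Fin.last (l + 1)) / (Nat.factorial l) := by
    simp only [c, Fin.val_last, Nat.sub_self, Nat.factorial_zero, Nat.cast_one, mul_one,
      Nat.factorial_succ]
    push_cast
    field_simp
  rw [h1, h2, sub_nonneg] at hlim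
  have h3 : (0 : ℝ) < Nat.factorial l := by positivity
  exact (div_le_div_iff_of_pos_right h3).1 hlim

end Pool.Agent.Y168.LefK
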