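import Pool.Agent.Y168.LefK.Line
import Pool.Agent.Y168.LefK.Num

/-! Subvarieties of the scroll and the conclusion on cones -/

set_option autoImplicit false

namespace Pool.Agent.Y168.LefK

open MvPolynomial Filter Topology

variable {k : ℕ} {κ : Type}

/-- the Hilbert function of a larger prime ideal -/
theorem hf_add_le [Fintype κ] {Q Q' : Ideal (Coord k κ)} (hQ : Q.IsPrime) (hle : Q ≤ Q')
    {a b : ℕ} {g : Coord k κ} (hg : g ∈ forms k κ a b) (hgQ : g ∉ Q) (hgQ' : g ∈ Q') (u v : ℕ) :
    hilbertFunction Q' (u + a) (v + b) + hilbertFunction Q u v ≤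
      hilbertFunction Q (u + a) (v + b) := by
  -- the map to the smaller quotient
  have hinj : Function.Injective (LinearMap.mulLeft ℂ (proj Q g)) := by
    have hA' : proj Q g ≠ 0 := fun h0 => hgQ (proj_eq_zero.1 h0)
    intro x y hxy
    exact mul_left_cancel₀ hA' hxy
  have hN : ((forms k κ u v).map (proj Q)).map (LinearMap.mulLeft ℂ (proj Q g)) ≤
      (forms k κ (u + a) (v + b)).map (proj Q) := by
    rintro _ ⟨_, ⟨w, hw, rfl⟩, rfl⟩
    refine ⟨g * w, ?_, by rw [LinearMap.mulLeft_apply, proj_mul]⟩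
    have := forms_mul hg hw
    rwa [add_comm a u, add_comm b v] at this
  let Φ : (Coord k κ ⧸ Q) →ₗ[ℂ] (Coord k κ ⧸ Q') := (Ideal.Quotient.factorₐ ℂ hle).toLinearMap
  have hΦ : ∀ f, Φ (proj Q f) = proj Q' f := fun f => rfl
  let A := (forms k κ (u + a) (v + b)).map (proj Q)
  have h1 := LinearMap.finrank_range_add_finrank_ker (Φ.domRestrict A)
  have h2 : LinearMap.range (Φ.domRestrict A) = (forms k κ (u + a) (v + b)).map (proj Q') := by
    rw [LinearMap.range_domRestrict]
    ext x
    constructor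
    · rintro ⟨_, ⟨w, hw, rfl⟩, rfl⟩
      exact ⟨w, hw, rfl⟩
    · rintro ⟨w, hw, rfl⟩
      exact ⟨_, ⟨w, hw, rfl⟩, rfl⟩
  have h3 : hilbertFunction Q u v ≤ Module.finrank ℂ (LinearMap.ker (Φ.domRestrict A)) := by
    unfold hilbertFunction
    rw [(Submodule.equivMapOfInjective _ hinj _).finrank_eq]
    have h4 : ((forms k κ u v).map (proj Q)).map (LinearMap.mulLeft ℂ (proj Q g)) ≤
        (LinearMap.ker (Φ.domRestrict A)).map A.subtype := by
      intro x hx
      refine ⟨⟨x, hN hx⟩, ?_, rfl⟩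
      obtain ⟨_, ⟨w, hw, rfl⟩, rfl⟩ := hx
      change Φ (LinearMap.mulLeft ℂ (proj Q g) (proj Q w)) = 0
      rw [LinearMap.mulLeft_apply, ← proj_mul, hΦ, proj_eq_zero]
      exact Q'.mul_mem_right _ hgQ'
    have : Module.Finite ℂ A := inferInstance
    calc _ ≤ Module.finrank ℂ ((LinearMap.ker (Φ.domRestrict A)).map A.subtype) :=
          Submodule.finrank_mono h4
      _ ≤ _ := Submodule.finrank_map_le _ _
  have h5 : hilbertFunction Q' (u + a) (v + b) =
      Module.finrank ℂ (LinearMap.range (Φ.domRestrict A)) := by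
    rw [h2]; rfl
  have h6 : hilbertFunction Q (u + a) (v + b) = Module.finrank ℂ A := rfl
  omega

/-- a `k`-dimensional variety which contains `P^k × {p}` is `P^k × {p}` -/
theorem IsVariety.le_sec [Fintype κ] {p : κ → ℂ} (hp : p ≠ 0) {Q : Ideal (Coord k κ)}
    {δ : Fin (k + 1) → ℝ} (h : IsVariety Q δ) (hle : secIdeal p ≤ Q) : Q ≤ secIdeal p := by
  intro f hf
  by_contra hfl
  -- a bihomogeneous component
  obtain ⟨d, hd⟩ : ∃ d : ℕ × ℕ,
      weightedHomogeneousComponent (bidegree k κ) d f ∉ secIdeal p := by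
    by_contra hcon
    push Not at hcon
    apply hfl
    rw [← sum_weightedHomogeneousComponent (bidegree k κ) f]
    rw [finsum_eq_sum _ (weightedHomogeneousComponent_finsupp f)]
    exact Ideal.sum_mem _ fun d _ => hcon d
  have hg : weightedHomogeneousComponent (bidegree k κ) d f ∈ forms k κ d.1 d.2 :=
    weightedHomogeneousComponent_isWeightedHomogeneous _ _
  have hgQ := h.bihomogeneous f hf d
  refine h.not_le (fun t => (((1 * t + k - 0).choose k : ℕ) : ℝ) -
    (((1 * t + k - d.1).choose k : ℕ) : ℝ)) ?_ ?_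
  · have h1 := (tendsto_choose k 1 0 le_rfl).sub (tendsto_choose k 1 d.1 le_rfl)
    rw [sub_self] at h1
    refine h1.congr fun t => ?_
    rw [sub_div]
  · filter_upwards [eventually_ge_atTop (d.1 + d.2)] with t ht
    have h1 := hf_add_le (secIdeal_prime p) hle hg hd hgQ (t - d.1) (t - d.2)
    have e1 : t - d.1 + d.1 = t := by omega
    have e2 : t - d.2 + d.2 = t := by omega
    rw [e1, e2, hf_sec hp, hf_sec hp] at h1
    have e3 : 1 * t + k - 0 = t + k := by omega
    have e4 : 1 * t + k - d.1 = t - d.1 + k := by omega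
    rw [e3, e4]
    have h2 : ((hilbertFunction Q t t : ℕ) : ℝ) + (((t - d.1 + k).choose k : ℕ) : ℝ) ≤
        (((t + k).choose k : ℕ) : ℝ) := by exact_mod_cast h1
    linarith

/-- `P^k × {p}` as a subvariety of a closed subset which contains it. -/
noncomputable def secVariety [Fintype κ] {p : κ → ℂ} (hp : p ≠ 0) {E : Set (Coord k κ)}
    (hE : ∀ f ∈ E, f ∈ secIdeal p) : Variety E :=
  ⟨secIdeal p, secδ k, isVariety_sec hp, hE⟩

/-- separation of a class from the push forward of a cone -/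
theorem not_mem_image {E E' : Set (Coord k κ)} (hEE : E ⊆ E') (S : Variety E) (a b : Fin (k + 1))
    (hS : S.δ b < S.δ a) (hZ : ∀ Z : Variety E', Z.δ a ≤ Z.δ b)
    {W V : Type*} [NormedAddCommGroup W] [NormedSpace ℝ W] [NormedAddCommGroup V]
    [NormedSpace ℝ V] (clY : Variety E → W) (h : Fin (k + 1) → (W →L[ℝ] ℝ))
    (hh : ∀ Z i, h i (clY Z) = Z.δ i) (clX : Variety E' → V)
    (i : V →L[ℝ] W) (hi : ∀ Z, i (clX Z) = clY (Z.incl hEE)) :
    clY S ∈ closedCone (Set.range clY) ∧ clY S ∉ i '' closedCone (Set.range clX) := by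
  refine ⟨subset_closure (PointedCone.subset_hull ⟨S, rfl⟩), ?_⟩
  rintro ⟨x, hx, hxL⟩
  have hcont : Continuous fun x : V => h b (i x) - h a (i x) := by fun_prop
  have h0 : closedCone (Set.range clX) ⊆ {x : V | 0 ≤ h b (i x) - h a (i x)} := by
    refine closure_minimal ?_ (isClosed_le continuous_const hcont)
    intro y hy
    refine Submodule.span_induction
      (p := fun y _ => 0 ≤ h b (i y) - h a (i y)) ?_ (by simp) ?_ ?_ hy
    · rintro _ ⟨Z, rfl⟩
      rw [hi, hh, hh]
      have := hZ Z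
      change 0 ≤ Z.δ b - Z.δ a
      linarith
    · intro y z _ _ hy hz
      rw [map_add, map_add, map_add]
      linarith
    · rintro ⟨r, hr⟩ y _ hy
      change 0 ≤ h b (i (r • y)) - h a (i (r • y))
      rw [map_smul, map_smul, map_smul, smul_eq_mul, smul_eq_mul]
      have : r * h b (i y) - r * h a (i y) = r * (h b (i y) - h a (i y)) := by ring
      rw [this]
      exact mul_nonneg hr hy
  have h1 := h0 hx
  rw [Set.mem_ofPred_eq, hxL, hh, hh] at h1
  linarith

theorem vertex_ne (k r : ℕ) : vertex k r ≠ 0 := by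
  intro h
  have := congrFun h none
  simp [vertex] at this

theorem scroll_sec {r : ℕ} : ∀ f ∈ scroll k r, f ∈ secIdeal (vertex k r) := by
  rintro _ ⟨i, j, l, rfl⟩
  rw [mem_secIdeal, map_sub, map_mul, map_mul, restr_xv, restr_xv]
  simp [vertex]

/-- the section is the locus `w = 0` -/
theorem sec_le {r : ℕ} {Q : Ideal (Coord k (SK k r))}
    (h : ∀ i : Fin r, ∀ j : Fin (k + 1), xv (some (i, j)) ∈ Q) : secIdeal (vertex k r) ≤ Q := by
  intro f hf
  rw [mem_secIdeal] at hf
  let ι : Coord k Unit →ₐ[ℂ] Coord k (SK k r) :=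
    aeval (Sum.elim (fun i => sv i) (fun _ => xv none))
  have key : (Ideal.Quotient.mkₐ ℂ Q).comp (ι.comp (restr (vertex k r))) =
      Ideal.Quotient.mkₐ ℂ Q := by
    apply MvPolynomial.algHom_ext
    rintro (i | a)
    · simp [ι, restr]
    · rcases a with _ | ⟨i, j⟩
      · simp [ι, restr, vertex]
      · have h1 : (Ideal.Quotient.mk Q) (xv (some (i, j))) = 0 :=
          Ideal.Quotient.eq_zero_iff_mem.2 (h i j)
        simpa [ι, restr, vertex] using h1.symm
  have h2 := congrArg (fun φ => φ f) key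
  simp only [AlgHom.comp_apply, hf, map_zero] at h2
  exact Ideal.Quotient.eq_zero_iff_mem.1 h2.symm

end Pool.Agent.Y168.LefK
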