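import Pool.Agent.Y168.LefK.Defs

set_option autoImplicit false

namespace Pool.Agent.Y168.LefK

open MvPolynomial Filter Topology

variable {k : ℕ} {κ : Type}

theorem mem_forms {u v : ℕ} {f : Coord k κ} :
    f ∈ forms k κ u v ↔ f.IsWeightedHomogeneous (bidegree k κ) (u, v) := Iff.rfl

theorem forms_mul {u v u' v' : ℕ} {f g : Coord k κ} (hf : f ∈ forms k κ u v)
    (hg : g ∈ forms k κ u' v') : f * g ∈ forms k κ (u + u') (v + v') := by
  have := IsWeightedHomogeneous.mul (mem_forms.1 hf) (mem_forms.1 hg)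
  simpa [mem_forms] using this

theorem sv_mem (i : Fin (k + 1)) : (sv i : Coord k κ) ∈ forms k κ 1 0 := by
  simpa [mem_forms, bidegree] using isWeightedHomogeneous_X ℂ (bidegree k κ) (Sum.inl i)

theorem xv_mem (j : κ) : (xv j : Coord k κ) ∈ forms k κ 0 1 := by
  simpa [mem_forms, bidegree] using isWeightedHomogeneous_X ℂ (bidegree k κ) (Sum.inr j)

theorem one_mem : (1 : Coord k κ) ∈ forms k κ 0 0 := isWeightedHomogeneous_one ℂ (bidegree k κ)

theorem forms_pow {u v : ℕ} {f : Coord k κ} (hf : f ∈ forms k κ u v) (n : ℕ) :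
    f ^ n ∈ forms k κ (n * u) (n * v) := by
  have := IsWeightedHomogeneous.pow (mem_forms.1 hf) n
  simpa [mem_forms] using this

theorem sv_pow_mem (i : Fin (k + 1)) (n : ℕ) : (sv i : Coord k κ) ^ n ∈ forms k κ n 0 := by
  simpa using forms_pow (sv_mem (k := k) (κ := κ) i) n

/-- the weight of an exponent vector -/
theorem weight_eq [Fintype κ] (m : Idx k κ →₀ ℕ) :
    Finsupp.weight (bidegree k κ) m = (∑ i, m (Sum.inl i), ∑ j, m (Sum.inr j)) := by
  rw [Finsupp.weight_apply, Finsupp.sum_fintype _ _ (by simp)]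
  rw [Fintype.sum_sum_type]
  ext
  · simp [bidegree, Prod.fst_sum]
  · simp [bidegree, Prod.snd_sum]

/-- induction for forms -/
theorem forms_induction {u v : ℕ} {P : Coord k κ → Prop} (h0 : P 0)
    (hadd : ∀ f g, P f → P g → P (f + g))
    (hmon : ∀ (m : Idx k κ →₀ ℕ) (c : ℂ), Finsupp.weight (bidegree k κ) m = (u, v) →
      P (monomial m c)) {f : Coord k κ} (hf : f ∈ forms k κ u v) : P f := by
  rw [f.as_sum]
  refine Finset.sum_induction _ P hadd h0 fun m hm => hmon m _ ?_
  exact (mem_forms.1 hf) (by simpa using hm)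

/-- the monomials of bidegree `(u, v)` -/
theorem finite_weight [Fintype κ] (u v : ℕ) :
    {m : Idx k κ →₀ ℕ | Finsupp.weight (bidegree k κ) m = (u, v)}.Finite := by
  classical
  refine Set.Finite.subset (Finset.finite_toSet
    (Finset.finsuppAntidiag (Finset.univ : Finset (Idx k κ)) (u + v))) ?_
  intro m hm
  rw [Set.mem_ofPred_eq, weight_eq] at hm
  rw [Finset.mem_coe, Finset.mem_finsuppAntidiag]
  refine ⟨?_, Finset.subset_univ _⟩
  rw [Fintype.sum_sum_type]
  have h1 := congrArg Prod.fst hm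
  have h2 := congrArg Prod.snd hm
  simp only at h1 h2
  omega

instance [Fintype κ] (u v : ℕ) : Module.Finite ℂ (forms k κ u v) := by
  have h : forms k κ u v = Submodule.span ℂ
      ((fun m : Idx k κ →₀ ℕ => (monomial m (1 : ℂ) : Coord k κ)) ''
        {m | Finsupp.weight (bidegree k κ) m = (u, v)}) := by
    apply le_antisymm
    · intro f hf
      refine forms_induction (P := fun f => f ∈ Submodule.span ℂ _) (Submodule.zero_mem _)
        (fun _ _ => Submodule.add_mem _) (fun m c hm => ?_) hf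
      have : (monomial m c : Coord k κ) = c • monomial m 1 := by
        rw [smul_monomial, smul_eq_mul, mul_one]
      rw [this]
      exact Submodule.smul_mem _ _ (Submodule.subset_span ⟨m, hm, rfl⟩)
    · rw [Submodule.span_le]
      rintro _ ⟨m, hm, rfl⟩
      exact isWeightedHomogeneous_monomial _ _ _ hm
  rw [h]
  exact Module.Finite.iff_fg.2 (Submodule.fg_span ((finite_weight u v).image _))

theorem proj_eq_zero {Q : Ideal (Coord k κ)} {f : Coord k κ} : proj Q f = 0 ↔ f ∈ Q :=
  Ideal.Quotient.eq_zero_iff_mem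

theorem proj_mul {Q : Ideal (Coord k κ)} (f g : Coord k κ) :
    proj Q (f * g) = proj Q f * proj Q g := map_mul (Ideal.Quotient.mk Q) f g

/-- Comparison of values of the Hilbert function. -/
theorem hf_le [Fintype κ] {Q : Ideal (Coord k κ)} (hQ : Q.IsPrime) {u v u' v' : ℕ} {A B : Coord k κ}
    (hA : A ∉ Q)
    (h : ∀ w ∈ forms k κ u v, ∃ w' ∈ forms k κ u' v', A * w - B * w' ∈ Q) :
    hilbertFunction Q u v ≤ hilbertFunction Q u' v' := by
  have hle : ((forms k κ u v).map (proj Q)).map (LinearMap.mulLeft ℂ (proj Q A)) ≤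
      ((forms k κ u' v').map (proj Q)).map (LinearMap.mulLeft ℂ (proj Q B)) := by
    rintro _ ⟨_, ⟨w, hw, rfl⟩, rfl⟩
    obtain ⟨w', hw', h1⟩ := h w hw
    refine ⟨proj Q w', ⟨w', hw', rfl⟩, ?_⟩
    rw [LinearMap.mulLeft_apply, LinearMap.mulLeft_apply, ← proj_mul, ← proj_mul]
    rw [← proj_eq_zero, map_sub, sub_eq_zero] at h1
    exact h1.symm
  have hinj : Function.Injective (LinearMap.mulLeft ℂ (proj Q A)) := by
    have hA' : proj Q A ≠ 0 := fun h0 => hA (proj_eq_zero.1 h0)
    intro x y hxy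
    exact mul_left_cancel₀ hA' hxy
  unfold hilbertFunction
  calc Module.finrank ℂ ((forms k κ u v).map (proj Q))
      = Module.finrank ℂ (((forms k κ u v).map (proj Q)).map
          (LinearMap.mulLeft ℂ (proj Q A))) :=
        (Submodule.equivMapOfInjective _ hinj _).finrank_eq
    _ ≤ Module.finrank ℂ (((forms k κ u' v').map (proj Q)).map
          (LinearMap.mulLeft ℂ (proj Q B))) := Submodule.finrank_mono hle
    _ ≤ _ := Submodule.finrank_map_le _ _

end Pool.Agent.Y168.LefK
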