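import Mathlib

/-!
# Integral closed subvarieties of `P^k × P(κ)` of dimension `k` and their classes

`P(κ)` is the complex projective space with homogeneous coordinates `x_j`, `j ∈ κ`.
-/

set_option autoImplicit false

namespace Pool.Agent.Y168.LefK

open MvPolynomial Filter Topology

/-- The index set of the homogeneous coordinates `s_0, …, s_k` of `P^k` and `x_j`, `j ∈ κ`, of the
projective space `P(κ)` (of dimension `|κ| - 1`). -/
abbrev Idx (k : ℕ) (κ : Type) : Type := Fin (k + 1) ⊕ κ

/-- The bihomogeneous coordinate ring of `P^k × P(κ)`. -/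
abbrev Coord (k : ℕ) (κ : Type) : Type := MvPolynomial (Idx k κ) ℂ

/-- The variable `s_i`, of bidegree `(1, 0)`. -/
noncomputable abbrev sv {k : ℕ} {κ : Type} (i : Fin (k + 1)) : Coord k κ := X (Sum.inl i)

/-- The variable `x_j`, of bidegree `(0, 1)`. -/
noncomputable abbrev xv {k : ℕ} {κ : Type} (j : κ) : Coord k κ := X (Sum.inr j)

/-- The bidegrees of the variables. -/
def bidegree (k : ℕ) (κ : Type) : Idx k κ → ℕ × ℕ :=
  Sum.elim (fun _ => (1, 0)) (fun _ => (0, 1))

/-- The vector space of the forms of bidegree `(u, v)`, that is `H^0(P^k × P(κ), O(u, v))`. -/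
noncomputable def forms (k : ℕ) (κ : Type) (u v : ℕ) : Submodule ℂ (Coord k κ) :=
  weightedHomogeneousSubmodule ℂ (bidegree k κ) (u, v)

variable {k : ℕ} {κ : Type}

/-- `Q` is bihomogeneous: it contains the bihomogeneous components of its elements. -/
def IsBihomogeneous (Q : Ideal (Coord k κ)) : Prop :=
  ∀ f ∈ Q, ∀ d : ℕ × ℕ, weightedHomogeneousComponent (bidegree k κ) d f ∈ Q

/-- The projection onto the quotient by `Q`. -/
noncomputable def proj (Q : Ideal (Coord k κ)) : Coord k κ →ₗ[ℂ] Coord k κ ⧸ Q :=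
  (Ideal.Quotient.mkₐ ℂ Q).toLinearMap

/-- The Hilbert function of `Q`: the dimension of the part of bidegree `(u, v)` of the quotient
of the coordinate ring by `Q`. -/
noncomputable def hilbertFunction (Q : Ideal (Coord k κ)) (u v : ℕ) : ℕ :=
  Module.finrank ℂ ((forms k κ u v).map (proj Q))

/-- The number `(p H₁ + q H₂)^k · Z / k!` for `δ i = H₁^i · H₂^(k-i) · Z`. -/
noncomputable def volume (k : ℕ) (δ : Fin (k + 1) → ℝ) (p q : ℝ) : ℝ :=
  ∑ i : Fin (k + 1), δ i * p ^ (i : ℕ) * q ^ (k - i : ℕ) /
    ((Nat.factorial i : ℝ) * (Nat.factorial (k - i) : ℝ))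

/-- `Q` is the bihomogeneous prime ideal of an integral closed subvariety `Z` of `P^k × P(κ)` of
dimension `k` with `H₁^i · H₂^(k-i) · Z = δ i` for `0 ≤ i ≤ k`, where `H₁ = O(1, 0)` and
`H₂ = O(0, 1)`: by the asymptotic Riemann–Roch theorem the Hilbert function is
`(u H₁ + v H₂)^k · Z / k!` up to lower order terms for large `u, v`, and this is required along
all rays `(p t, q t)`; as `H₁ + H₂` is ample, `(H₁ + H₂)^k · Z > 0`. -/
structure IsVariety (Q : Ideal (Coord k κ)) (δ : Fin (k + 1) → ℝ) : Prop where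
  prime : Q.IsPrime
  bihomogeneous : IsBihomogeneous Q
  growth : ∀ p q : ℕ, 1 ≤ p → 1 ≤ q → Tendsto
    (fun t : ℕ => (hilbertFunction Q (p * t) (q * t) : ℝ) / (t : ℝ) ^ k) atTop
    (𝓝 (volume k δ p q))
  pos : 0 < volume k δ 1 1

/-- The integral closed subvarieties `Z` of dimension `k` of the closed subset of `P^k × P(κ)` on
which the polynomials of the set `E` vanish, with the intersection numbers
`δ i = H₁^i · H₂^(k-i) · Z`. -/
structure Variety (E : Set (Coord k κ)) where
  /-- the bihomogeneous prime ideal of the subvariety -/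
  ideal : Ideal (Coord k κ)
  /-- the intersection numbers -/
  δ : Fin (k + 1) → ℝ
  isVariety : IsVariety ideal δ
  subset : ∀ f ∈ E, f ∈ ideal

/-- A subvariety of a closed subset of `Y` is a subvariety of `Y`. -/
def Variety.incl {E E' : Set (Coord k κ)} (h : E ⊆ E') (Z : Variety E') : Variety E :=
  ⟨Z.ideal, Z.δ, Z.isVariety, fun f hf => Z.subset f (h hf)⟩

/-- The closed convex cone spanned by a set. -/
def closedCone {V : Type*} [AddCommGroup V] [Module ℝ V] [TopologicalSpace V] (S : Set V) :
    Set V :=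
  closure (PointedCone.hull ℝ S : Set V)

/-- The index set of the homogeneous coordinates `y` (`none`) and `w_{i j}` (`some (i, j)`),
`i < r`, `j ≤ k`, of `P^{r (k + 1)}`. -/
abbrev SK (k r : ℕ) : Type := Option (Fin r × Fin (k + 1))

/-- The equations `s_j w_{i l} = s_l w_{i j}` of `Y_{k, r} ⊂ P^k × P^{r (k + 1)}`.  In the fibre over
`s ∈ P^k` they say that `w_{i j} = z_i s_j` for some `z_i`, so this fibre is the projective space
with the coordinates `y, z_0, …, z_{r-1}`, and `Y_{k, r}` is the projective bundle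
`P(O + O(1)^r)` over `P^k`. -/
noncomputable def scroll (k r : ℕ) : Set (Coord k (SK k r)) :=
  {f | ∃ (i : Fin r) (j l : Fin (k + 1)), f = sv j * xv (some (i, l)) - sv l * xv (some (i, j))}

/-- The point `w = 0` of `P^{r (k + 1)}`. -/
def vertex (k r : ℕ) : SK k r → ℂ := fun x => if x = none then 1 else 0

end Pool.Agent.Y168.LefK
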