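import Pool.Agent.Y168.LefK.Basic

set_option autoImplicit false

namespace Pool.Agent.Y168.LefK

open MvPolynomial Filter Topology

variable {k : ℕ} {κ : Type}

theorem single_add_sub {m : Idx k κ →₀ ℕ} {a : Idx k κ} (ha : m a ≠ 0) :
    Finsupp.single a 1 + (m - Finsupp.single a 1) = m := by
  classical
  ext l
  by_cases hl : l = a
  · subst hl
    simp only [Finsupp.add_apply, Finsupp.single_eq_same, Finsupp.tsub_apply]
    omega
  · simp [Ne.symm hl]

/-- division of a monomial by a variable -/
theorem X_mul_mon {m : Idx k κ →₀ ℕ} {a : Idx k κ} (ha : m a ≠ 0) (c : ℂ) :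
    (X a : Coord k κ) * monomial (m - Finsupp.single a 1) c = monomial m c := by
  have h : (X a : Coord k κ) = monomial (Finsupp.single a 1) 1 := rfl
  rw [h, monomial_mul, one_mul, single_add_sub ha]

theorem weight_sub {m : Idx k κ →₀ ℕ} {a : Idx k κ} (ha : m a ≠ 0) :
    bidegree k κ a + Finsupp.weight (bidegree k κ) (m - Finsupp.single a 1) =
      Finsupp.weight (bidegree k κ) m := by
  conv_rhs => rw [← single_add_sub ha]
  rw [map_add, Finsupp.weight_single, one_smul]

/-- division by a variable `s_i` -/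
theorem mon_sub_mem {m : Idx k κ →₀ ℕ} {i : Fin (k + 1)} (ha : m (Sum.inl i) ≠ 0) {u v : ℕ}
    (hm : Finsupp.weight (bidegree k κ) m = (u + 1, v)) (c : ℂ) :
    (monomial (m - Finsupp.single (Sum.inl i) 1) c : Coord k κ) ∈ forms k κ u v := by
  rw [mem_forms]
  apply isWeightedHomogeneous_monomial
  have h4 := weight_sub ha
  rw [hm] at h4
  have h6 := congrArg Prod.fst h4
  have h7 := congrArg Prod.snd h4
  simp only [Prod.fst_add, Prod.snd_add, bidegree, Sum.elim_inl] at h6 h7
  ext
  · simp only [bidegree]; omega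
  · simp only [bidegree]; omega

theorem IsVariety.le_of {Q : Ideal (Coord k κ)} {δ : Fin (k + 1) → ℝ} (h : IsVariety Q δ)
    {p q p' q' : ℕ} (hp : 1 ≤ p) (hq : 1 ≤ q) (hp' : 1 ≤ p') (hq' : 1 ≤ q')
    (hle : ∀ᶠ t : ℕ in atTop,
      hilbertFunction Q (p * t) (q * t) ≤ hilbertFunction Q (p' * t) (q' * t)) :
    volume k δ p q ≤ volume k δ p' q' := by
  refine le_of_tendsto_of_tendsto (h.growth p q hp hq) (h.growth p' q' hp' hq') ?_
  filter_upwards [hle] with t ht
  have : (hilbertFunction Q (p * t) (q * t) : ℝ) ≤ hilbertFunction Q (p' * t) (q' * t) := by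
    exact_mod_cast ht
  exact div_le_div_of_nonneg_right this (by positivity)

/-- small along the diagonal: contradiction -/
theorem IsVariety.not_le {Q : Ideal (Coord k κ)} {δ : Fin (k + 1) → ℝ} (h : IsVariety Q δ)
    (B : ℕ → ℝ) (hB : Tendsto (fun t : ℕ => B t / (t : ℝ) ^ k) atTop (𝓝 0))
    (hB' : ∀ᶠ t : ℕ in atTop, (hilbertFunction Q t t : ℝ) ≤ B t) : False := by
  have h1 := h.growth 1 1 le_rfl le_rfl
  have h3 := le_of_tendsto_of_tendsto h1 hB (by
    filter_upwards [hB'] with t ht
    rw [one_mul]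
    exact div_le_div_of_nonneg_right ht (by positivity))
  have := h.pos
  push_cast at h3
  linarith

/-- the bound for the volume from one step -/
theorem IsVariety.volume_le {Q : Ideal (Coord k κ)} {δ : Fin (k + 1) → ℝ} (h : IsVariety Q δ)
    (hstep : ∀ u v : ℕ, hilbertFunction Q (u + 1) v ≤ hilbertFunction Q u (v + 1))
    {p q j : ℕ} (hq : 1 ≤ q) (hj : j < p) :
    volume k δ p q ≤ volume k δ ((p - j : ℕ) : ℝ) ((q + j : ℕ) : ℝ) := by
  have hiter : ∀ j u v : ℕ,
      hilbertFunction Q (u + j) v ≤ hilbertFunction Q u (v + j) := by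
    intro j
    induction j with
    | zero => intro u v; simp
    | succ j ih =>
      intro u v
      have h1 := hstep (u + j) v
      have h2 := ih u (v + 1)
      have e : v + 1 + j = v + (j + 1) := by ring
      rw [e] at h2
      exact h1.trans h2
  refine h.le_of (by omega) hq (by omega) (by omega) ?_
  filter_upwards with t
  have h2 := hiter (j * t) ((p - j) * t) (q * t)
  have e1 : (p - j) * t + j * t = p * t := by
    rw [← add_mul]; congr 1; omega
  have e2 : q * t + j * t = (q + j) * t := by ring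
  rwa [e1, e2] at h2

/-- some `x_j` does not vanish on a variety -/
theorem IsVariety.exists_sv [Fintype κ] {Q : Ideal (Coord k κ)} {δ : Fin (k + 1) → ℝ}
    (h : IsVariety Q δ) : ∃ i, sv i ∉ Q := by
  by_contra hcon
  push Not at hcon
  refine h.not_le (fun _ => 0) (by simp) ?_
  filter_upwards [eventually_ge_atTop 1] with t ht
  unfold hilbertFunction
  have : (forms k κ t t).map (proj Q) = ⊥ := by
    rw [eq_bot_iff]
    rintro _ ⟨w, hw, rfl⟩
    rw [Submodule.mem_bot, proj_eq_zero]
    refine forms_induction (P := fun w => w ∈ Q) Q.zero_mem (fun _ _ => Q.add_mem) ?_ hw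
    intro m c hm
    rw [weight_eq] at hm
    have h2 := congrArg Prod.fst hm
    simp only at h2
    obtain ⟨j, hj⟩ : ∃ j, m (Sum.inl j) ≠ 0 := by
      by_contra h3
      push Not at h3
      simp [h3] at h2
      omega
    rw [← X_mul_mon hj]
    exact Q.mul_mem_right _ (hcon j)
  rw [this, finrank_bot, Nat.cast_zero]

end Pool.Agent.Y168.LefK
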