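import Pool.Agent.Y168.LefK.Key

/-! The subvariety `P^k × {p}` -/

set_option autoImplicit false

namespace Pool.Agent.Y168.LefK

open MvPolynomial Filter Topology

variable {k : ℕ} {κ : Type}

/-- the restriction of polynomials to `P^1 × {p}` -/
noncomputable def restr (p : κ → ℂ) : Coord k κ →ₐ[ℂ] Coord k Unit :=
  aeval (Sum.elim (fun i => sv i) (fun j => C (p j) * xv ()))

/-- the ideal of `P^1 × {p}` -/
noncomputable def secIdeal (p : κ → ℂ) : Ideal (Coord k κ) := RingHom.ker (restr p)

theorem mem_secIdeal {p : κ → ℂ} {f : Coord k κ} : f ∈ secIdeal p ↔ restr p f = 0 := Iff.rfl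

theorem secIdeal_prime (p : κ → ℂ) : (secIdeal (k := k) p).IsPrime := RingHom.ker_isPrime _

theorem restr_sv (p : κ → ℂ) (i : Fin (k + 1)) : restr p (sv i) = sv i := by
  simp [restr]

theorem restr_xv (p : κ → ℂ) (j : κ) :
    restr (k := k) p (xv j) = C (p j) * xv () := by
  simp [restr]

theorem restr_mem (p : κ → ℂ) {u v : ℕ} {f : Coord k κ} (hf : f ∈ forms k κ u v) :
    restr p f ∈ forms k Unit u v := by
  classical
  refine forms_induction (P := fun f => restr p f ∈ forms k Unit u v) (by simp)
    (fun f g hf hg => by rw [map_add]; exact Submodule.add_mem _ hf hg) ?_ hf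
  intro m c hm
  have h : ∀ (m : Idx k κ →₀ ℕ), ∀ u v : ℕ, Finsupp.weight (bidegree k κ) m = (u, v) →
      restr p (monomial m 1) ∈ forms k Unit u v := by
    intro m
    induction m using Finsupp.induction_linear with
    | zero =>
      intro u v h
      rw [map_zero] at h
      have h1 : u = 0 := (congrArg Prod.fst h).symm
      have h2 : v = 0 := (congrArg Prod.snd h).symm
      subst h1; subst h2
      have : (monomial (0 : Idx k κ →₀ ℕ) (1 : ℂ) : Coord k κ) = 1 := rfl
      rw [this, map_one]
      exact one_mem
    | add f g hf hg =>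
      intro u v h
      have e : (monomial (f + g) (1 : ℂ) : Coord k κ) = monomial f 1 * monomial g 1 := by
        rw [monomial_mul, one_mul]
      rw [e, map_mul]
      rw [map_add] at h
      obtain ⟨⟨u₁, v₁⟩, hu₁⟩ : ∃ a, a = Finsupp.weight (bidegree k κ) f := ⟨_, rfl⟩
      obtain ⟨⟨u₂, v₂⟩, hu₂⟩ : ∃ a, a = Finsupp.weight (bidegree k κ) g := ⟨_, rfl⟩
      have h1 := forms_mul (hf _ _ hu₁.symm) (hg _ _ hu₂.symm)
      rw [← hu₁, ← hu₂] at h
      have h2 := congrArg Prod.fst h
      have h3 := congrArg Prod.snd h
      simp only [Prod.fst_add, Prod.snd_add] at h2 h3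
      rwa [h2, h3] at h1
    | single a n =>
      intro u v h
      rw [Finsupp.weight_single] at h
      have e : (monomial (Finsupp.single a n) (1 : ℂ) : Coord k κ) = X a ^ n := by
        rw [X_pow_eq_monomial]
      rw [e, map_pow]
      rcases a with i | j
      · have h1 : u = n := by simpa [bidegree] using (congrArg Prod.fst h).symm
        have h2 : v = 0 := by simpa [bidegree] using (congrArg Prod.snd h).symm
        subst h1; subst h2
        have := restr_sv p i
        unfold sv at this
        rw [this]
        exact sv_pow_mem i u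
      · have h1 : u = 0 := by simpa [bidegree] using (congrArg Prod.fst h).symm
        have h2 : v = n := by simpa [bidegree] using (congrArg Prod.snd h).symm
        subst h1; subst h2
        have := restr_xv (k := k) p j
        unfold xv at this
        rw [this, mul_pow, ← C_pow, ← smul_eq_C_mul]
        refine Submodule.smul_mem _ _ ?_
        simpa using forms_pow (xv_mem (k := k) (κ := Unit) ()) v
  have e : (monomial m c : Coord k κ) = c • monomial m 1 := by
    rw [smul_monomial, smul_eq_mul, mul_one]
  rw [e, map_smul]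
  exact Submodule.smul_mem _ _ (h m u v hm)

theorem secIdeal_bihom (p : κ → ℂ) : IsBihomogeneous (secIdeal (k := k) p) := by
  classical
  intro f hf d
  rw [mem_secIdeal] at hf ⊢
  have h1 : restr p f = ∑ᶠ m, restr p (weightedHomogeneousComponent (bidegree k κ) m f) := by
    conv_lhs => rw [← sum_weightedHomogeneousComponent (bidegree k κ) f]
    exact (restr p).toLinearMap.toAddMonoidHom.map_finsum
      (weightedHomogeneousComponent_finsupp f)
  have h2 := congrArg (weightedHomogeneousComponent (bidegree k Unit) d) h1
  have hfin : (Function.support fun m =>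
      restr p (weightedHomogeneousComponent (bidegree k κ) m f)).Finite := by
    refine (weightedHomogeneousComponent_finsupp (w := bidegree k κ) f).subset ?_
    intro m hm h0
    apply hm
    simp only [h0, map_zero]
  rw [hf, map_zero] at h2
  have h5 := (weightedHomogeneousComponent (R := ℂ) (bidegree k Unit) d).toAddMonoidHom.map_finsum
    hfin
  have h6 : (0 : Coord k Unit) = ∑ᶠ m, weightedHomogeneousComponent (bidegree k Unit) d
      (restr p (weightedHomogeneousComponent (bidegree k κ) m f)) := h2.trans h5
  rw [finsum_eq_single _ d] at h6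
  · have h3 : (restr p (weightedHomogeneousComponent (bidegree k κ) d f)).IsWeightedHomogeneous
        (bidegree k Unit) d := restr_mem p (weightedHomogeneousComponent_isWeightedHomogeneous _ _)
    rw [weightedHomogeneousComponent_eq_self h3] at h6
    exact h6.symm
  · intro m hm
    have h3 : restr p (weightedHomogeneousComponent (bidegree k κ) m f) ∈
        weightedHomogeneousSubmodule ℂ (bidegree k Unit) m :=
      restr_mem p (weightedHomogeneousComponent_isWeightedHomogeneous _ _)
    rw [weightedHomogeneousComponent_of_mem h3, if_neg (Ne.symm hm)]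

theorem prod_sv_mem (s : Finset (Fin (k + 1))) (e : Fin (k + 1) → ℕ) :
    ∏ i ∈ s, (sv i : Coord k κ) ^ e i ∈ forms k κ (∑ i ∈ s, e i) 0 := by
  classical
  induction s using Finset.induction_on with
  | empty => simpa using one_mem
  | insert a s ha ih =>
    rw [Finset.prod_insert ha, Finset.sum_insert ha]
    simpa using forms_mul (sv_pow_mem (k := k) (κ := κ) a (e a)) ih

theorem card_weight_unit (u v : ℕ) :
    Nat.card {m : Idx k Unit →₀ ℕ | Finsupp.weight (bidegree k Unit) m = (u, v)} =
      (u + k).choose k := by
  classical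
  let f : {m : Idx k Unit →₀ ℕ | Finsupp.weight (bidegree k Unit) m = (u, v)} →
      (Finset.finsuppAntidiag (Finset.univ : Finset (Fin (k + 1))) u) :=
    fun m => ⟨(Finsupp.sumFinsuppEquivProdFinsupp m.1).1, by
      have hm := m.2
      rw [Set.mem_ofPred_eq, weight_eq] at hm
      have h1 := congrArg Prod.fst hm
      rw [Finset.mem_finsuppAntidiag]
      exact ⟨by simpa using h1, Finset.subset_univ _⟩⟩
  have hf : Function.Bijective f := by
    constructor
    · rintro ⟨m, hm⟩ ⟨m', hm'⟩ h
      rw [Set.mem_ofPred_eq, weight_eq] at hm hm'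
      have h2 := congrArg Prod.snd hm
      have h2' := congrArg Prod.snd hm'
      simp only [Finset.univ_unique, Finset.sum_singleton] at h2 h2'
      apply Subtype.ext
      have h3 := congrArg Subtype.val h
      ext a
      rcases a with i | i
      · have := DFunLike.congr_fun h3 i
        simpa [f] using this
      · exact h2.trans h2'.symm
    · rintro ⟨g, hg⟩
      rw [Finset.mem_finsuppAntidiag] at hg
      refine ⟨⟨Finsupp.sumFinsuppEquivProdFinsupp.symm (g, Finsupp.single () v), ?_⟩, ?_⟩
      · rw [Set.mem_ofPred_eq, weight_eq]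
        ext
        · simpa using hg.1
        · simp
      · apply Subtype.ext
        simp [f]
  rw [Nat.card_eq_of_bijective f hf, Nat.card_eq_fintype_card, Fintype.card_coe,
    Finset.card_finsuppAntidiag_nat_eq_choose, Finset.card_univ, Fintype.card_fin]
  have : k + 1 + u - 1 = u + k := by omega
  rw [this, Nat.choose_symm_add]

theorem finrank_forms_unit (u v : ℕ) :
    Module.finrank ℂ (forms k Unit u v) = (u + k).choose k := by
  classical
  have hfin := finite_weight (k := k) (κ := Unit) u v
  have : Fintype {m : Idx k Unit →₀ ℕ | Finsupp.weight (bidegree k Unit) m = (u, v)} :=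
    hfin.fintype
  have h1 : forms k Unit u v = AddMonoidAlgebra.supported ℂ ℂ
      {m : Idx k Unit →₀ ℕ | Finsupp.weight (bidegree k Unit) m = (u, v)} :=
    weightedHomogeneousSubmodule_eq_finsupp_supported ℂ _ _
  rw [h1]
  rw [(AddMonoidAlgebra.supportedEquivFinsupp (R := ℂ) (S := ℂ)
    {m : Idx k Unit →₀ ℕ | Finsupp.weight (bidegree k Unit) m = (u, v)}).finrank_eq,
    Module.finrank_finsupp_self, ← card_weight_unit u v, Nat.card_eq_fintype_card]

theorem map_restr {p : κ → ℂ} (hp : p ≠ 0) (u v : ℕ) :
    (forms k κ u v).map (restr p).toLinearMap = forms k Unit u v := by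
  classical
  apply le_antisymm
  · rintro _ ⟨f, hf, rfl⟩
    exact restr_mem p hf
  · intro f hf
    obtain ⟨j, hj⟩ : ∃ j, p j ≠ 0 := by
      by_contra h
      push Not at h
      exact hp (funext h)
    refine forms_induction (P := fun f => f ∈ (forms k κ u v).map (restr p).toLinearMap)
      (Submodule.zero_mem _) (fun _ _ => Submodule.add_mem _) ?_ hf
    intro m c hm
    rw [weight_eq] at hm
    have h1 := congrArg Prod.fst hm
    have h2 := congrArg Prod.snd hm
    simp only [Finset.univ_unique, Finset.sum_singleton] at h1 h2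
    refine ⟨C (c * (p j)⁻¹ ^ v) * ((∏ i, sv i ^ m (Sum.inl i)) * xv j ^ v), ?_, ?_⟩
    · change _ ∈ forms k κ u v
      rw [← smul_eq_C_mul]
      refine Submodule.smul_mem _ _ ?_
      have := forms_mul (prod_sv_mem (κ := κ) Finset.univ fun i => m (Sum.inl i))
        (forms_pow (xv_mem j) v)
      simpa [h1] using this
    · change restr p _ = _
      have h3 : restr p (C (c * (p j)⁻¹ ^ v) : Coord k κ) = C (c * (p j)⁻¹ ^ v) := by
        simp only [restr, aeval_C]
        rfl
      have h6 : restr p ((∏ i, sv i ^ m (Sum.inl i)) * xv j ^ v : Coord k κ) =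
          (∏ i, sv i ^ m (Sum.inl i)) * (C (p j) * xv ()) ^ v := by
        rw [map_mul, map_prod, map_pow, restr_xv]
        congr 1
        exact Finset.prod_congr rfl fun i _ => by rw [map_pow, restr_sv]
      rw [map_mul, h3, h6, mul_pow, ← C_pow]
      have h4 : (monomial m c : Coord k Unit) =
          C c * ((∏ i, sv i ^ m (Sum.inl i)) * xv () ^ v) := by
        rw [monomial_eq, Finsupp.prod_fintype _ _ (by simp), Fintype.prod_sum_type]
        simp only [Finset.univ_unique, Finset.prod_singleton]
        congr 3
      rw [h4]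
      have h5 : C (c * (p j)⁻¹ ^ v) * C (p j ^ v) = (C c : Coord k Unit) := by
        rw [← C_mul, mul_assoc, ← mul_pow, inv_mul_cancel₀ hj, one_pow, mul_one]
      calc _ = (C (c * (p j)⁻¹ ^ v) * C (p j ^ v)) *
            ((∏ i, sv i ^ m (Sum.inl i)) * xv () ^ v) := by ring
        _ = _ := by rw [h5]

theorem hf_sec [Fintype κ] {p : κ → ℂ} (hp : p ≠ 0) (u v : ℕ) :
    hilbertFunction (secIdeal (k := k) p) u v = (u + k).choose k := by
  unfold hilbertFunction
  rw [← finrank_forms_unit u v, ← map_restr hp u v]
  -- both are quotients of the forms by the same kernel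
  have hker : LinearMap.ker ((proj (secIdeal p)).domRestrict (forms k κ u v)) =
      LinearMap.ker ((restr p).toLinearMap.domRestrict (forms k κ u v)) := by
    ext f
    rw [LinearMap.mem_ker, LinearMap.mem_ker, LinearMap.domRestrict_apply,
      LinearMap.domRestrict_apply, proj_eq_zero, mem_secIdeal]
    rfl
  have h1 := LinearMap.finrank_range_add_finrank_ker
    ((proj (secIdeal p)).domRestrict (forms k κ u v))
  have h2 := LinearMap.finrank_range_add_finrank_ker
    ((restr p).toLinearMap.domRestrict (forms k κ u v))
  rw [LinearMap.range_domRestrict] at h1 h2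
  rw [hker] at h1
  omega

/-- the asymptotics of binomial coefficients -/
theorem tendsto_choose (k a b : ℕ) (ha : 1 ≤ a) :
    Tendsto (fun t : ℕ => (((a * t + k - b).choose k : ℕ) : ℝ) / (t : ℝ) ^ k) atTop
      (𝓝 ((a : ℝ) ^ k / (Nat.factorial k : ℝ))) := by
  have hn : Tendsto (fun t : ℕ => a * t + k - b) atTop atTop := by
    refine tendsto_atTop.2 fun N => ?_
    filter_upwards [eventually_ge_atTop (N + b)] with t ht
    have : t ≤ a * t := Nat.le_mul_of_pos_left t (by omega)
    omega
  have h1 := (isEquivalent_choose k).comp_tendsto hn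
  have h2 : Asymptotics.IsEquivalent atTop
      (fun t : ℕ => (((a * t + k - b).choose k : ℕ) : ℝ) / (t : ℝ) ^ k)
      (fun t : ℕ => ((((a * t + k - b : ℕ) : ℝ)) ^ k / (Nat.factorial k : ℝ)) / (t : ℝ) ^ k) :=
    h1.div Asymptotics.IsEquivalent.refl
  refine h2.symm.tendsto_nhds ?_
  have h3 : Tendsto (fun t : ℕ => (((a * t + k - b : ℕ) : ℝ)) / (t : ℝ)) atTop (𝓝 (a : ℝ)) := by
    have h4 : Tendsto (fun t : ℕ => (a : ℝ) + ((k : ℝ) - b) / (t : ℝ)) atTop
        (𝓝 ((a : ℝ) + 0)) :=
      tendsto_const_nhds.add (tendsto_const_div_atTop_nhds_zero_nat _)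
    rw [add_zero] at h4
    refine h4.congr' ?_
    filter_upwards [eventually_ge_atTop (b + 1)] with t ht
    have h5 : t ≤ a * t := Nat.le_mul_of_pos_left t (by omega)
    have h6 : (t : ℝ) ≠ 0 := by
      have : (1 : ℝ) ≤ t := by exact_mod_cast (by omega : 1 ≤ t)
      linarith
    rw [Nat.cast_sub (by omega)]
    push_cast
    field_simp
    ring
  have h7 := (h3.pow k).div_const (Nat.factorial k : ℝ)
  refine h7.congr fun t => ?_
  rw [div_pow, div_right_comm]

/-- the intersection numbers of `P^k × {p}` -/
def secδ (k : ℕ) : Fin (k + 1) → ℝ := fun i => if i = Fin.last k then 1 else 0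

theorem volume_secδ (k : ℕ) (p q : ℝ) :
    volume k (secδ k) p q = p ^ k / (Nat.factorial k : ℝ) := by
  unfold volume secδ
  rw [Finset.sum_eq_single (Fin.last k)]
  · simp
  · intro i _ hi
    simp [hi]
  · simp

theorem isVariety_sec [Fintype κ] {p : κ → ℂ} (hp : p ≠ 0) :
    IsVariety (secIdeal (k := k) p) (secδ k) where
  prime := secIdeal_prime p
  bihomogeneous := secIdeal_bihom p
  growth := by
    intro a b ha _
    rw [volume_secδ]
    have := tendsto_choose k a 0 ha
    simpa [hf_sec hp] using this
  pos := by
    rw [volume_secδ]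
    positivity

end Pool.Agent.Y168.LefK
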