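import Pool.Agent.Y168.LefK.Asm

/-! Subvarieties of the scroll `P(O + O(1)^r)` over `P^k`. -/

set_option autoImplicit false

namespace Pool.Agent.Y168.LefK

open MvPolynomial Filter Topology

/-- a variety in the scroll on which some `w_{i j}` does not vanish -/
theorem scroll_variety {l r : ℕ} {Q : Ideal (Coord (l + 1) (SK (l + 1) r))}
    {δ : Fin (l + 2) → ℝ} (h : IsVariety Q δ) (hE : ∀ f ∈ scroll (l + 1) r, f ∈ Q) {i : Fin r}
    {j : Fin (l + 2)} (hw : xv (some (i, j)) ∉ Q) :
    δ (Fin.last (l + 1)) ≤ δ (Fin.castSucc (Fin.last l)) := by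
  refine coeff_le l δ fun p q n hq hn => ?_
  refine h.volume_le (fun u v => ?_) hq hn
  refine hf_le h.prime (A := xv (some (i, j))) (B := sv j) hw ?_
  intro w hw
  refine forms_induction (P := fun w => ∃ w' ∈ forms (l + 1) (SK (l + 1) r) u (v + 1),
    xv (some (i, j)) * w - sv j * w' ∈ Q) ⟨0, Submodule.zero_mem _, by simp⟩ ?_ ?_ hw
  · rintro f g ⟨f', hf', hf⟩ ⟨g', hg', hg⟩
    refine ⟨f' + g', Submodule.add_mem _ hf' hg', ?_⟩
    have := Q.add_mem hf hg
    convert this using 1
    ring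
  · intro m c hm
    obtain ⟨a, ha⟩ : ∃ a : Fin (l + 2), m (Sum.inl a) ≠ 0 := by
      by_contra h3
      push Not at h3
      rw [weight_eq] at hm
      have h2 := congrArg Prod.fst hm
      simp [h3] at h2
    refine ⟨xv (some (i, a)) * monomial (m - Finsupp.single (Sum.inl a) 1) c, ?_, ?_⟩
    · have := forms_mul (xv_mem (some (i, a))) (mon_sub_mem ha hm c)
      rwa [zero_add, add_comm 1 v] at this
    · rw [← X_mul_mon ha c]
      have hrel : sv j * xv (some (i, a)) - sv a * xv (some (i, j)) ∈ Q := hE _ ⟨i, j, a, rfl⟩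
      have := Q.mul_mem_right (monomial (m - Finsupp.single (Sum.inl a) 1) c) (Q.neg_mem hrel)
      convert this using 1
      ring

/-- varieties in the scroll on which a form vanishes that does not vanish on the section -/
theorem scroll_variety' {l r : ℕ} {Q : Ideal (Coord (l + 1) (SK (l + 1) r))}
    {δ : Fin (l + 2) → ℝ} (h : IsVariety Q δ) (hE : ∀ f ∈ scroll (l + 1) r, f ∈ Q)
    {F : Coord (l + 1) (SK (l + 1) r)} (hF : F ∈ Q) (hFL : F ∉ secIdeal (vertex (l + 1) r)) :
    δ (Fin.last (l + 1)) ≤ δ (Fin.castSucc (Fin.last l)) := by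
  by_cases hw : ∃ i : Fin r, ∃ j : Fin (l + 2), xv (some (i, j)) ∉ Q
  · obtain ⟨i, j, hij⟩ := hw
    exact scroll_variety h hE hij
  · push Not at hw
    exact absurd (h.le_sec (vertex_ne (l + 1) r) (sec_le hw) hF) hFL

theorem eval_restr {k : ℕ} {κ : Type} (p : κ → ℂ) (s : Fin (k + 1) → ℂ) (F : Coord k κ) :
    eval (Sum.elim s p) F = eval (Sum.elim s fun _ => 1) (restr p F) := by
  have : (aeval (Sum.elim s p) : Coord k κ →ₐ[ℂ] ℂ) =
      (aeval (Sum.elim s fun _ => 1) : Coord k Unit →ₐ[ℂ] ℂ).comp (restr p) := by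
    apply MvPolynomial.algHom_ext
    rintro (i | j) <;> simp [restr]
  have h := congrArg (fun φ => φ F) this
  simpa [aeval_eq_eval, AlgHom.comp_apply] using h

end Pool.Agent.Y168.LefK
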